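import Pool.Agent.Helper84.OV.Zero

/-!
# Packet OV-FOR (MP_57df85_nt)
-/

set_option autoImplicit false

open Finset

namespace Pool.Agent.Helper8.OV.FOR

open Pool.Agent.Helper84.OV

open scoped Polynomial

lemma dvd_succ {f : PowerSeries ℚ} {k : ℕ} (h0 : PowerSeries.constantCoeff f = 0)
    (h1 : PowerSeries.X ^ k ∣ dd f) : PowerSeries.X ^ (k + 1) ∣ f := by
  rw [PowerSeries.X_pow_dvd_iff] at h1 ⊢
  intro m hm
  rcases m with _ | m
  · simpa using h0
  · have h2 := h1 m (by omega)
    rw [PowerSeries.coeff_derivative] at h2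
    rcases mul_eq_zero.mp h2 with h3 | h3
    · exact h3
    · exfalso
      have : (0 : ℚ) < (m : ℚ) + 1 := by positivity
      linarith

/-- the function of a triple -/
noncomputable def FF (u v : ℤ) (Ψ : R2 →+* PowerSeries ℚ) (uh vh : PowerSeries ℚ) (B : Fin 3 → R2) :
    PowerSeries ℚ :=
  ff Ψ uh vh B 0 + PowerSeries.C (u : ℚ) * ff Ψ uh vh B 1 + PowerSeries.C (v : ℚ) * ff Ψ uh vh B 2

theorem t : S_FOR := by
  intro hW G p q u v Ψ uh vh B J hp hpq hB hU hv
  have hc : ∀ C : Fin 3 → R2, PowerSeries.constantCoeff (FF u v Ψ uh vh C) =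
      ((evt p q u v C : ℤ) : ℚ) := by
    intro C
    unfold FF ff evt
    simp only [Matrix.cons_val_zero, Matrix.cons_val_one, Matrix.cons_val_two, Matrix.head_cons,
      Matrix.tail_cons, map_add, map_mul, PowerSeries.constantCoeff_C, hB.ev, hU.u0, hU.v0]
    push_cast
    ring
  have hd : ∀ C : Fin 3 → R2, dd (FF u v Ψ uh vh C) * Ψ EE = FF u v Ψ uh vh (naD G C) := by
    intro C
    have h1 := (hW G p q Ψ uh vh C hB hU).1
    have e : dd (FF u v Ψ uh vh C) = dd (ff Ψ uh vh C 0) + PowerSeries.C (u : ℚ) * dd (ff Ψ uh vh C 1) +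
        PowerSeries.C (v : ℚ) * dd (ff Ψ uh vh C 2) := by
      unfold FF dd
      simp only [map_add, Derivation.leibniz, PowerSeries.derivative_C, smul_eq_mul, mul_zero, add_zero]
    rw [e]
    unfold FF
    rw [← h1 0, ← h1 1, ← h1 2]
    ring
  have hE : IsUnit (Ψ EE) := by
    rw [PowerSeries.isUnit_iff_constantCoeff, hB.ev, ev_EE, isUnit_iff_ne_zero]
    norm_cast
    have h1 : p ≠ 0 := by omega
    have h2 : q ≠ 0 := by omega
    have h3 : 1 - p ≠ 0 := by omega
    have h4 : 1 - q ≠ 0 := by omega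
    have h5 : p - q ≠ 0 := by omega
    positivity
  have key : ∀ (k : ℕ) (C : Fin 3 → R2), (∀ j < k, evt p q u v ((naD G)^[j] C) = 0) →
      PowerSeries.X ^ k ∣ FF u v Ψ uh vh C := by
    intro k
    induction k with
    | zero => intro C _; simp
    | succ k ih =>
      intro C hC
      refine dvd_succ ?_ ?_
      · rw [hc]
        have := hC 0 (by omega)
        simp only [Function.iterate_zero, id] at this
        rw [this]
        simp
      · have h1 := ih (naD G C) (fun j hj => by
          have := hC (j + 1) (by omega)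
          rwa [Function.iterate_succ_apply] at this)
        rw [← hd] at h1
        exact (hE.dvd_mul_right).mp h1
  exact key (J + 1) B fun j hj => hv j (by omega)

end Pool.Agent.Helper8.OV.FOR
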